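import Pool.Agent.PCS.Stmts

set_option autoImplicit false

open scoped Pointwise

namespace Pool.Agent.PCS.H32

open Pool.Agent.PCS Pool.Agent.H50.CIG

section

variable {Γ : Type} [Group Γ]

theorem ball_finite (S : Finset Γ) (r : ℕ) : (ball S r).Finite := by
  unfold ball
  induction r with
  | zero =>
    rw [pow_zero]
    exact Set.finite_one
  | succ r ih =>
    rw [pow_succ]
    exact ih.mul S.finite_toSet

theorem inv_mem_ball {S : Finset Γ} (hinv : ∀ s ∈ S, s⁻¹ ∈ S) (r : ℕ) :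
    ∀ g ∈ ball S r, g⁻¹ ∈ ball S r := by
  unfold ball
  induction r with
  | zero =>
    intro g hg
    rw [pow_zero] at hg ⊢
    rw [Set.mem_one] at hg ⊢
    rw [hg, inv_one]
  | succ r ih =>
    intro g hg
    rw [pow_succ] at hg
    rw [pow_succ']
    obtain ⟨a, ha, b, hb, rfl⟩ := Set.mem_mul.1 hg
    rw [mul_inv_rev]
    exact Set.mul_mem_mul (hinv b hb) (ih a ha)

theorem ball_mono {S : Finset Γ} (h1 : (1 : Γ) ∈ S) {m n : ℕ} (h : m ≤ n) :
    ball S m ⊆ ball S n :=
  Set.pow_subset_pow_right (by exact_mod_cast h1) h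

theorem exists_ball {S : Finset Γ} (hinv : ∀ s ∈ S, s⁻¹ ∈ S)
    (hgen : Subgroup.closure (S : Set Γ) = ⊤) (g : Γ) : ∃ n, g ∈ ball S n := by
  have hg : g ∈ Subgroup.closure (S : Set Γ) := by
    rw [hgen]
    exact Subgroup.mem_top g
  induction hg using Subgroup.closure_induction with
  | mem x hx =>
    refine ⟨1, ?_⟩
    unfold ball
    rw [pow_one]
    exact hx
  | one =>
    refine ⟨0, ?_⟩
    unfold ball
    rw [pow_zero]
    exact Set.mem_one.2 rfl
  | mul x y _ _ hx hy =>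
    obtain ⟨m, hm⟩ := hx
    obtain ⟨n, hn⟩ := hy
    refine ⟨m + n, ?_⟩
    unfold ball at hm hn ⊢
    rw [pow_add]
    exact Set.mul_mem_mul hm hn
  | inv x _ hx =>
    obtain ⟨m, hm⟩ := hx
    exact ⟨m, inv_mem_ball hinv m x hm⟩

/-- if all balls have at most `B` elements then the group is finite -/
theorem finite_of_balls {S : Finset Γ} (h1 : (1 : Γ) ∈ S) (hinv : ∀ s ∈ S, s⁻¹ ∈ S)
    (hgen : Subgroup.closure (S : Set Γ) = ⊤) {B : ℕ} (hB : ∀ r, (ball S r).ncard ≤ B) :
    ¬ Infinite Γ := by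
  intro hinf
  obtain ⟨F, hF⟩ := Infinite.exists_subset_card_eq Γ (B + 1)
  choose f hf using exists_ball hinv hgen
  have hsub : (F : Set Γ) ⊆ ball S (F.sup f) := by
    intro g hg
    exact ball_mono h1 (Finset.le_sup (f := f) hg) (hf g)
  have h2 := Set.ncard_le_ncard hsub (ball_finite S _)
  rw [Set.ncard_coe_finset, hF] at h2
  have := hB (F.sup f)
  omega

end

theorem dze (hlev : LevStmt) (hitp : ItpStmt) (hcnt : CntStmt) (htyp : TypStmt)
    (hdsc : DscStmt) : DzeStmt := by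
  have _ := hitp
  intro Γ V _ _ T S rk R K q M hset hM U n hU hdel
  refine finite_of_balls (B := Nat.card (fc Γ) * q * M ^ 2) hset.one_mem hset.inv_mem hset.gen ?_
    hset.inf
  intro r
  have hrj : r ≤ 2 ^ r := le_of_lt Nat.lt_two_pow_self
  obtain ⟨U', n', hU', -, hmap, hlv⟩ := hdsc Γ V T S rk R K q hset U n hU (K * r)
  have htyp' := htyp Γ V T S rk R K q hset U' n' hU' (2 * r)
  have hdel' : ∀ᶠ v in (U' : Filter V), del S rk (T.par^[K * r] v) = 0 := by
    rw [← hmap] at hdel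
    exact hdel
  have hn' := hU'.1
  obtain ⟨v, ⟨h1, h2⟩, h3, h4⟩ := ((hlv.and htyp').and (hdel'.and hn')).exists
  have hle : N Γ v ≤ M := by
    rw [h4]
    exact hM U' n' hU'
  have hah : ah S rk 1 (T.par^[K * r] v) = 0 := by
    unfold ah
    refine Finset.sum_eq_zero fun s hs => ?_
    have hempty : {w : V | w ∈ MulAction.orbit Γ (T.par^[K * r] v) ∧ 1 ≤ rk s w} = ∅ := by
      ext w
      simp only [Set.mem_setOf_eq, Set.mem_empty_iff_false, iff_false, not_and, not_le]
      intro hw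
      have hbdd : BddAbove {n | ∃ s ∈ S, ∃ w ∈ MulAction.orbit Γ (T.par^[K * r] v),
          n = rk s w} := by
        refine ⟨R, ?_⟩
        rintro _ ⟨s', hs', w', -, rfl⟩
        exact hset.rank.le s' hs' w'
      have h5 : rk s w ≤ del S rk (T.par^[K * r] v) := le_csSup hbdd ⟨s, hs, w, hw, rfl⟩
      omega
    rw [hempty, Set.ncard_empty]
  have hcount := hcnt Γ V T S rk R K q hset r r v hrj h1 h2 (by
    rw [hah, mul_zero]
    exact ((hlev Γ V T).2 _).2.1)
  refine hcount.trans ?_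
  exact Nat.mul_le_mul_left _ (Nat.pow_le_pow_left hle 2)

end Pool.Agent.PCS.H32
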