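import Pool.Agent.PCS.Stmts

set_option autoImplicit false

namespace Pool.Agent.PCS.H32

open Pool.Agent.PCS Pool.Agent.H50.CIG

section

variable {Γ V : Type} [Group Γ] [MulAction Γ V]

theorem alive_mono {T : Tree Γ V} {S : Finset Γ} {rk : Γ → V → ℕ} {m n : ℕ} (h : m ≤ n) {v : V}
    (hn : Alive T S rk n v) : Alive T S rk m v := fun i hi => hn i (lt_of_lt_of_le hi h)

/-- a child in the sense of `par` is a child one level below, or it is the vertex itself (root) -/
theorem child_or (T : Tree Γ V) {x a : V} (h : T.par x = a) : x = a ∨ T.lv x = T.lv a + 1 := by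
  rcases Nat.eq_zero_or_pos (T.lv x) with h0 | h0
  · left
    have h1 : T.lv a = 0 := by
      rw [← h, T.lv_par, h0]
    rw [T.eq_root x h0, T.eq_root a h1]
  · right
    rw [← h, T.lv_par]
    omega

theorem kk_of_children (T : Tree Γ V) {a : V} {h : Γ} (ha : h • a = a)
    (hc : ∀ x, T.par x = a → T.lv x = T.lv a + 1 → h ∈ KK T x) : h ∈ KK T a := by
  intro k
  induction k with
  | zero =>
    intro w hw
    have hw' : w = a := hw
    rw [hw']
    exact ha
  | succ k ih =>
    intro w hw
    rw [Function.iterate_succ_apply'] at hw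
    rcases child_or T hw with h1 | h1
    · exact ih w h1
    · exact hc _ hw h1 k w rfl

end

theorem spb (hlev : LevStmt) (hitp : ItpStmt) (hspa : SpaStmt) : SpbStmt := by
  have _ := hlev
  intro Γ V _ _ T S rk R hrk hS v h
  obtain ⟨hitp1, -⟩ := hitp Γ V T
  obtain ⟨-, hpar, -⟩ := hspa Γ V T S rk R hrk hS
  refine ⟨?_, ?_⟩
  · intro n
    induction n with
    | zero =>
      intro _ hK _
      exact hK
    | succ n ih =>
      intro hal hK hh
      refine ih (alive_mono (Nat.le_succ n) hal) ?_ (fun m y hm hy => hh m y (Nat.lt_succ_of_lt hm) hy)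
      have hp := hpar n v hal
      have hb : h • (stp T S rk)^[n + 1] v = (stp T S rk)^[n + 1] v := hK 0 _ rfl
      refine kk_of_children T ?_ ?_
      · rw [← hp, ← T.par_smul, hb]
      · intro x hx hl
        by_cases hxb : x = (stp T S rk)^[n + 1] v
        · rw [hxb]
          exact hK
        · exact hh n x (Nat.lt_succ_self n) ⟨hal, hx, hl, hxb⟩
  · intro hal hfix hh
    have key : ∀ (k n : ℕ) (w : V), T.par^[k] w = (stp T S rk)^[n] v → h • w = w := by
      intro k
      induction k with
      | zero =>
        intro n w hw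
        have hw' : w = (stp T S rk)^[n] v := hw
        rw [hw']
        exact hfix n
      | succ k ih =>
        intro n w hw
        rw [Function.iterate_succ_apply'] at hw
        rcases child_or T hw with h1 | h1
        · exact ih n w h1
        · by_cases hxb : T.par^[k] w = (stp T S rk)^[n + 1] v
          · exact ih (n + 1) w hxb
          · exact hh n _ ⟨hal (n + 1), hw, h1, hxb⟩ k w rfl
    intro k w hw
    exact key k 0 w hw

end Pool.Agent.PCS.H32
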